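import Pool.Agent.REV.StmtsG
import Pool.Agent.BPH.Sph

/-!
# Squad REV (MP_bbfd73_gt), row RAD: radius and direction in the unit ball
-/

set_option autoImplicit false

open MeasureTheory Module Set Filter
open scoped RealInnerProductSpace Pointwise Topology ENNReal

namespace Pool.Agent.REV.H97

open Pool.Agent.BPH Pool.Agent.REV

section

variable {E : Type} [NormedAddCommGroup E] [InnerProductSpace ℝ E] [FiniteDimensional ℝ E]
  [MeasurableSpace E] [BorelSpace E]

theorem map_ball {R : ℝ} (hR : 0 < R) :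
    (volume.restrict (Metric.ball (0 : E) R)).map nrm = volume (Metric.ball (0 : E) R) • sph E := by
  ext s hs
  have h := sph_facts.ball R hR (s.indicator (1 : E → ℝ≥0∞)) (measurable_one.indicator hs)
  rw [Measure.map_apply measurable_nrm hs, Measure.smul_apply, smul_eq_mul]
  rw [lintegral_indicator_one hs] at h
  rw [← h, ← lintegral_indicator_one (measurable_nrm hs)]
  rfl

theorem int_ball {R : ℝ} (hR : 0 < R) {F : E → ℝ} (hF : Measurable F) :
    ∫ z in Metric.ball (0 : E) R, F (nrm z) =
      (volume (Metric.ball (0 : E) R)).toReal * ∫ x, F x ∂sph E := by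
  rw [← integral_map (φ := nrm) (f := F) measurable_nrm.aemeasurable hF.aestronglyMeasurable,
    map_ball hR, integral_smul_measure, smul_eq_mul]

theorem vol_ball {R : ℝ} (hR : 0 < R) : (volume (Metric.ball (0 : E) R)).toReal =
    R ^ finrank ℝ E * (volume (Metric.ball (0 : E) 1)).toReal := by
  rw [Measure.addHaar_ball_of_pos volume (0 : E) hR, ENNReal.toReal_mul,
    ENNReal.toReal_ofReal (by positivity)]

theorem int_one_sub {F : E → ℝ} (hF : Measurable F) {C : ℝ} (hC : ∀ x, |F x| ≤ C) :
    ∫ x in Metric.ball (0 : E) 1, (1 - ‖x‖) * F (nrm x) =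
      (volume (Metric.ball (0 : E) 1)).toReal * (∫ x, F x ∂sph E) / (finrank ℝ E + 1) := by
  have hfin : IsFiniteMeasure (volume.restrict (Metric.ball (0 : E) 1)) :=
    ⟨by rw [Measure.restrict_apply_univ]; exact measure_ball_lt_top⟩
  have hB : ∀ r : ℝ, MeasurableSet (Metric.ball (0 : E) r) :=
    fun r => Metric.isOpen_ball.measurableSet
  -- the inner integral over t
  have h1 : ∀ x ∈ Metric.ball (0 : E) 1, (1 - ‖x‖) * F (nrm x) =
      ∫ t in Ioo (0 : ℝ) 1, (if ‖x‖ < t then F (nrm x) else 0) := by
    intro x hx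
    rw [mem_ball_zero_iff] at hx
    have h2 : (fun t : ℝ => if ‖x‖ < t then F (nrm x) else 0) =
        (Ioi ‖x‖).indicator (fun _ => F (nrm x)) := by
      funext t
      by_cases ht : ‖x‖ < t
      · rw [if_pos ht, indicator_of_mem (by exact ht)]
      · rw [if_neg ht, indicator_of_notMem (by exact ht)]
    rw [h2, setIntegral_indicator measurableSet_Ioi]
    have h3 : Ioo (0 : ℝ) 1 ∩ Ioi ‖x‖ = Ioo ‖x‖ 1 := by
      ext t
      simp only [mem_inter_iff, mem_Ioo, mem_Ioi]
      constructor
      · rintro ⟨⟨-, h⟩, h'⟩; exact ⟨h', h⟩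
      · rintro ⟨h, h'⟩; exact ⟨⟨lt_of_le_of_lt (norm_nonneg x) h, h'⟩, h⟩
    rw [h3, setIntegral_const, smul_eq_mul]
    congr 1
    simp [Measure.real, hx.le]
  rw [setIntegral_congr_fun (hB 1) h1]
  have hint : Integrable (Function.uncurry fun (x : E) (t : ℝ) =>
      if ‖x‖ < t then F (nrm x) else 0)
      ((volume.restrict (Metric.ball (0 : E) 1)).prod (volume.restrict (Ioo (0 : ℝ) 1))) := by
    refine Integrable.of_bound (C := C) ?_ ?_
    · apply Measurable.aestronglyMeasurable
      refine Measurable.ite ?_ ?_ measurable_const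
      · exact measurableSet_lt (measurable_norm.comp measurable_fst) measurable_snd
      · exact hF.comp (measurable_nrm.comp measurable_fst)
    · refine Filter.Eventually.of_forall fun p => ?_
      have hC0 : 0 ≤ C := (abs_nonneg _).trans (hC 0)
      rcases p with ⟨x, t⟩
      simp only [Function.uncurry]
      split_ifs
      · rw [Real.norm_eq_abs]; exact hC _
      · rw [norm_zero]; exact hC0
  rw [integral_integral_swap hint]
  have h4 : ∀ t ∈ Ioo (0 : ℝ) 1, ∫ x in Metric.ball (0 : E) 1, (if ‖x‖ < t then F (nrm x) else 0) =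
      t ^ finrank ℝ E * ((volume (Metric.ball (0 : E) 1)).toReal * ∫ x, F x ∂sph E) := by
    intro t ht
    have h2 : (fun x : E => if ‖x‖ < t then F (nrm x) else 0) =
        (Metric.ball (0 : E) t).indicator (fun x => F (nrm x)) := by
      funext x
      by_cases hx : ‖x‖ < t
      · rw [if_pos hx, indicator_of_mem (mem_ball_zero_iff.2 hx)]
      · rw [if_neg hx, indicator_of_notMem (fun h => hx (mem_ball_zero_iff.1 h))]
    rw [h2, setIntegral_indicator (hB t),
      inter_eq_right.2 (Metric.ball_subset_ball ht.2.le), int_ball ht.1 hF, vol_ball ht.1, mul_assoc]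
  rw [setIntegral_congr_fun measurableSet_Ioo h4, integral_mul_const]
  have h5 : ∫ t in Ioo (0 : ℝ) 1, t ^ finrank ℝ E = 1 / (finrank ℝ E + 1) := by
    rw [← integral_Ioc_eq_integral_Ioo, ← intervalIntegral.integral_of_le zero_le_one,
      integral_pow]
    simp
  rw [h5]
  ring

end

/-- **RAD** -/
theorem rad : RadStmt := by
  intro E _ _ _ _ _ _
  refine ⟨fun F hF => int_ball one_pos hF.meas, ?_⟩
  have hV : 0 < (volume (Metric.ball (0 : E) 1)).toReal :=
    ENNReal.toReal_pos (vol_ball_ne_zero one_pos) (vol_ball_ne_top 1)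
  have hn : 0 < finrank ℝ E := finrank_pos
  have hn' : (0 : ℝ) < finrank ℝ E := by exact_mod_cast hn
  refine ⟨(volume (Metric.ball (0 : E) 1)).toReal * (finrank ℝ E / (finrank ℝ E + 1)),
    mul_pos hV (div_pos hn' (by linarith)), fun F hF => ?_⟩
  have hfin : IsFiniteMeasure (volume.restrict (Metric.ball (0 : E) 1)) :=
    ⟨by rw [Measure.restrict_apply_univ]; exact measure_ball_lt_top⟩
  obtain ⟨C, hC⟩ := hF.bdd
  have hC0 : 0 ≤ C := (abs_nonneg _).trans (hC 0)
  have hI : Integrable (fun x : E => F (nrm x)) (volume.restrict (Metric.ball (0 : E) 1)) :=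
    Integrable.of_bound (hF.meas.comp measurable_nrm).aestronglyMeasurable C
      (Filter.Eventually.of_forall fun x => by rw [Real.norm_eq_abs]; exact hC _)
  have hI2 : Integrable (fun x : E => (1 - ‖x‖) * F (nrm x))
      (volume.restrict (Metric.ball (0 : E) 1)) := by
    refine Integrable.of_bound (C := C) ?_ ?_
    · exact ((measurable_const.sub measurable_norm).mul
        (hF.meas.comp measurable_nrm)).aestronglyMeasurable
    · filter_upwards [ae_restrict_mem Metric.isOpen_ball.measurableSet] with x hx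
      rw [mem_ball_zero_iff] at hx
      rw [Real.norm_eq_abs, abs_mul]
      have h1 : |1 - ‖x‖| ≤ 1 := by
        rw [abs_le]; constructor <;> linarith [norm_nonneg x]
      calc |1 - ‖x‖| * |F (nrm x)| ≤ 1 * C :=
            mul_le_mul h1 (hC _) (abs_nonneg _) zero_le_one
        _ = C := one_mul C
  have h1 : ∀ x : E, ‖x‖ * F (nrm x) = F (nrm x) - (1 - ‖x‖) * F (nrm x) := fun x => by ring
  simp_rw [h1]
  rw [integral_sub hI hI2, int_one_sub hF.meas hC, int_ball one_pos hF.meas]
  field_simp
  ring

end Pool.Agent.REV.H97
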